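import Pool.Agent.H.MP_07ea7a_an.B

namespace Pool.Agent.Results.MP_07ea7a_an.Yes

open Pool.Agent.H.MP_07ea7a_an
open scoped ContDiff

theorem result (𝕂 : Type) [RCLike 𝕂] (d : ℕ) (Ω : Set (Fin d → ℝ)) (hΩ : IsOpen Ω)
    (w : (Fin d → ℝ) → 𝕂) (ψ : (Fin d → ℝ) → Fin d → ℝ)
    (hw : ContDiffOn ℝ ∞ w Ω) (hψ : ContDiffOn ℝ ∞ ψ Ω) (hm : Set.MapsTo ψ Ω Ω)
    (chaotic : Trans Ω w ψ ∧ DensePer Ω w ψ) : Mixing Ω w ψ :=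
  main hΩ hw hψ hm chaotic.1 chaotic.2

end Pool.Agent.Results.MP_07ea7a_an.Yes
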